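import Mathlib
import Pool.Agent.H58.TreeAlphaRec
import Pool.Agent.H58.BalancedEdge
import Pool.Agent.H29.BW.Cover

set_option autoImplicit false

namespace Pool.Agent.Results.MP_bd25ec_co.SimWidthBiclique

open SimpleGraph

universe u

/-- `G` has no induced subgraph isomorphic to the complete bipartite graph `K_{r,t}`. -/
def BicliqueFree {V : Type u} (r t : ℕ) (G : SimpleGraph V) : Prop :=
  IsEmpty (completeBipartiteGraph (Fin r) (Fin t) ↪g G)

/-- A tree decomposition of `G`: a finite tree `T` and a bag for each of its nodes, such that every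
vertex is in a bag, both ends of every edge are in a common bag, and for every vertex `v` the nodes
whose bag contains `v` induce a connected subgraph of `T`. -/
structure TreeDecomposition {V : Type u} (G : SimpleGraph V) where
  ι : Type
  finite : Finite ι
  T : SimpleGraph ι
  isTree : T.IsTree
  bag : ι → Set V
  vertex_mem : ∀ v, ∃ t, v ∈ bag t
  edge_mem : ∀ u v, G.Adj u v → ∃ t, u ∈ bag t ∧ v ∈ bag t
  connected : ∀ v, (T.induce {t | v ∈ bag t}).Connected

/-- The tree-independence number of `G` is at most `c`: some tree decomposition of `G` has all its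
bags of independence number at most `c`. -/
def TreeAlphaLE {V : Type u} (G : SimpleGraph V) (c : ℕ) : Prop :=
  ∃ D : TreeDecomposition G, ∀ (t : D.ι) (I : Finset V),
    (I : Set V) ⊆ D.bag t → G.IsIndepSet (I : Set V) → I.card ≤ c

/-- A branch decomposition of a graph with vertex set `V`: a finite tree `T` of maximum degree at
most `3` and a bijection `L` from `V` to the leaves (nodes of degree one) of `T`. -/
structure BranchDecomposition (V : Type u) where
  N : Type
  finite : Finite N
  T : SimpleGraph N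
  isTree : T.IsTree
  degree_le : ∀ t, (T.neighborSet t).ncard ≤ 3
  L : V ≃ {t : N // (T.neighborSet t).ncard = 1}

/-- For an edge `xy` of the tree, the set `A_e` of vertices whose leaf lies in the component of
`T - xy` containing `x` (its complement is `B_e`). -/
def BranchDecomposition.side {V : Type u} (D : BranchDecomposition V) (x y : D.N) : Set V :=
  {v | (D.T.deleteEdges {s(x, y)}).Reachable x (D.L v).1}

/-- `M` is an induced matching of `G` all whose edges `ab` have `a ∈ A` and `b ∉ A`. -/
def InducedCutMatching {V : Type u} (G : SimpleGraph V) (A : Set V) (M : Finset (V × V)) : Prop :=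
  (∀ p ∈ M, G.Adj p.1 p.2 ∧ p.1 ∈ A ∧ p.2 ∉ A) ∧
  ∀ p ∈ M, ∀ q ∈ M, p ≠ q →
    p.1 ≠ q.1 ∧ p.2 ≠ q.2 ∧ ¬ G.Adj p.1 q.1 ∧ ¬ G.Adj p.1 q.2 ∧ ¬ G.Adj p.2 q.2

/-- The sim-width of `G` is at most `k`: `G` has at most one vertex, or some branch decomposition
of `G` has `sim(A_e, B_e) ≤ k` for every edge `e` of its tree. -/
def SimWidthLE {V : Type u} [Fintype V] (G : SimpleGraph V) (k : ℕ) : Prop :=
  Fintype.card V ≤ 1 ∨ ∃ D : BranchDecomposition V, ∀ x y, D.T.Adj x y →
    ∀ M : Finset (V × V), InducedCutMatching G (D.side x y) M → M.card ≤ k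

section

open Pool.Agent.H58.TreeAlpha Pool.Agent.H58.BalancedEdge

variable {V : Type u} [Fintype V] (G : SimpleGraph V)

/-- covers of all cuts without large induced crossing matchings give a tree decomposition -/
lemma treeAlpha_of_cover {k K : ℕ} (hK : 1 ≤ K) (hk : SimWidthLE G k)
    (hcov : ∀ A : Set V, (∀ M : Finset (V × V), InducedCutMatching G A M → M.card ≤ k) →
      ∃ S : Set V, al G S ≤ K ∧ ∀ a ∈ A, ∀ b, b ∉ A → G.Adj a b → a ∈ S ∨ b ∈ S) :
    TreeAlphaLE G (7 * K) := by
  classical
  have key : HasTD G Set.univ (7 * K) ∅ := by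
    rcases hk with hk | ⟨D, hD⟩
    · have h1 : al G (Set.univ : Set V) ≤ 7 * K := by
        refine al_le G fun S _ _ => ?_
        have := Finset.card_le_univ S
        omega
      exact (HasTD.single G h1).mono G (Set.empty_subset _)
    · have hsep : Sep G K := by
        intro I hI
        have := D.finite
        obtain ⟨x, y, hxy, h1, h2⟩ := balanced D.isTree D.degree_le (fun v => (D.L v).1)
          (fun a b hab => D.L.injective (Subtype.ext hab)) (fun v => (D.L v).2) I hI
        obtain ⟨S, hS1, hS2⟩ := hcov (D.side x y) (hD x y hxy)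
        refine ⟨D.side x y, S, ?_, ?_, hS1, hS2⟩
        · exact h1
        · refine le_trans h2 (Nat.mul_le_mul_left _ (Finset.card_le_card ?_))
          intro v hv
          rw [Finset.mem_filter] at hv ⊢
          exact ⟨hv.1, fun h => R_disjoint D.isTree.2 hxy h hv.2⟩
      exact rec_main G hK hsep _ Set.univ ∅ rfl (Set.empty_subset _)
        (by rw [al_empty]; exact Nat.zero_le _)
  obtain ⟨ι, hι, T, bag, r, h1, h2, h3, h4, h5, h6, h7⟩ := key
  refine ⟨⟨ι, hι, T, h1, bag, fun v => h3 v (Set.mem_univ v),
    fun u v huv => h4 u (Set.mem_univ u) v (Set.mem_univ v) huv, fun v => ?_⟩, ?_⟩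
  · obtain ⟨t, ht⟩ := h3 v (Set.mem_univ v)
    have : Nonempty {t | v ∈ bag t} := ⟨⟨t, ht⟩⟩
    exact ⟨h5 v⟩
  · intro t I hI1 hI2
    exact le_trans (le_al G hI1 hI2) (h6 t)

/-- In a graph without induced `K_{r,t}`, the crossing edges of a cut without induced matching of
size `k+1` are covered by a set of independence number at most `(t - 1 + r(r-1)/2) (8k)^r`. -/
lemma exists_cover_biclique {r t k : ℕ} (hr : 1 ≤ r) (ht : 2 ≤ t) (hG : BicliqueFree r t G)
    (A : Set V) (hA : ∀ M : Finset (V × V), InducedCutMatching G A M → M.card ≤ k) :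
    ∃ S : Set V, al G S ≤ (t - 1 + r.choose 2) * (8 * k) ^ r ∧
      ∀ a ∈ A, ∀ b, b ∉ A → G.Adj a b → a ∈ S ∨ b ∈ S := by
  rcases Nat.eq_zero_or_pos k with hk | hk
  · refine ⟨∅, by rw [al_empty]; exact Nat.zero_le _, fun a ha b hb hab => ?_⟩
    have h1 := hA {(a, b)} (by
      constructor
      · intro p hp
        rw [Finset.mem_singleton] at hp
        subst hp
        exact ⟨hab, ha, hb⟩
      · intro p hp q hq hpq
        rw [Finset.mem_singleton] at hp hq
        exact absurd (hp.trans hq.symm) hpq)
    rw [Finset.card_singleton] at h1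
    omega
  · have hkR : (1 : ℝ) ≤ k := by exact_mod_cast hk
    have hbigN : 8 * k < (t - 1 + r.choose 2) * (8 * k) ^ r + 1 := by
      have h1 : 8 * k ≤ (8 * k) ^ r := Nat.le_self_pow (by omega) _
      have h2 : 1 * (8 * k) ^ r ≤ (t - 1 + r.choose 2) * (8 * k) ^ r :=
        Nat.mul_le_mul_right _ (by omega)
      omega
    set s := (t - 1 + r.choose 2) * (8 * k) ^ r + 1 with hs
    have hbig : 8 * (k : ℝ) < (s : ℝ) := by exact_mod_cast hbigN
    have hsR : (s : ℝ) = ((t - 1 + r.choose 2 : ℕ) : ℝ) * (8 * k) ^ r + 1 := by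
      rw [hs]; push_cast; ring
    obtain ⟨S, hS1, hS2⟩ := Pool.Agent.H29.BW.exists_cover G (r := r) (t := t) (k := k)
      (s := s) hr (by omega) hG A hA (δ := 1 / (8 * k)) (by positivity) (by
        rw [div_pow, one_pow, mul_one_div, le_div_iff₀ (by positivity), hsR]
        linarith) (by omega) (by
        have h3 : 4 / (s : ℝ) < 4 / (8 * k) :=
          div_lt_div_of_pos_left (by norm_num) (by positivity) hbig
        calc (k : ℝ) * (4 * (1 / (8 * k)) + 4 / (s : ℝ))
            < k * (4 * (1 / (8 * k)) + 4 / (8 * k)) := by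
              refine mul_lt_mul_of_pos_left ?_ (by linarith)
              linarith
          _ = 1 := by field_simp; norm_num)
    exact ⟨S, by simpa [hs] using hS1, hS2⟩

end

/-- Every finite graph of sim-width at most `k` with no induced `K_{r,t}` has tree-independence
number at most `7 ((t - 1 + r(r-1)/2) (8k)^r + 1)`. -/
theorem result : ∀ r t : ℕ, 1 ≤ r → 2 ≤ t → ∀ k : ℕ, ∀ (V : Type u) [Fintype V]
    (G : SimpleGraph V), BicliqueFree r t G → SimWidthLE G k →
      TreeAlphaLE G (7 * ((t - 1 + r.choose 2) * (8 * k) ^ r + 1)) := by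
  intro r t hr ht k V _ G hG hk
  refine treeAlpha_of_cover G (by omega) hk fun A hA => ?_
  obtain ⟨S, h1, h2⟩ := exists_cover_biclique G hr ht hG A hA
  exact ⟨S, by omega, h2⟩

end Pool.Agent.Results.MP_bd25ec_co.SimWidthBiclique
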