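import Mathlib
import Pool.Agent.H58.TreeAlphaRec
import Pool.Agent.H58.BalancedEdge

set_option autoImplicit false

namespace Pool.Agent.Results.MP_bd25ec_co.SimWidthTreeAlpha

open SimpleGraph

universe u

/-- `G` has no induced subgraph isomorphic to the star `K_{1,d}`. -/
def StarFree {V : Type u} (d : ℕ) (G : SimpleGraph V) : Prop :=
  IsEmpty (completeBipartiteGraph (Fin 1) (Fin d) ↪g G)

/-- A tree decomposition of `G`: a finite tree `T` and a bag for each of its nodes, such that every
vertex is in a bag, both ends of every edge are in a common bag, and for every vertex `v` the nodes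
whose bag contains `v` induce a connected subgraph of `T`. -/
structure TreeDecomposition {V : Type u} (G : SimpleGraph V) where
  ι : Type
  finite : Finite ι
  T : SimpleGraph ι
  isTree : T.IsTree
  bag : ι → Set V
  vertex_mem : ∀ v, ∃ t, v ∈ bag t
  edge_mem : ∀ u v, G.Adj u v → ∃ t, u ∈ bag t ∧ v ∈ bag t
  connected : ∀ v, (T.induce {t | v ∈ bag t}).Connected

/-- The tree-independence number of `G` is at most `c`: some tree decomposition of `G` has all its
bags of independence number at most `c`. -/
def TreeAlphaLE {V : Type u} (G : SimpleGraph V) (c : ℕ) : Prop :=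
  ∃ D : TreeDecomposition G, ∀ (t : D.ι) (I : Finset V),
    (I : Set V) ⊆ D.bag t → G.IsIndepSet (I : Set V) → I.card ≤ c

/-- A branch decomposition of a graph with vertex set `V`: a finite tree `T` of maximum degree at
most `3` and a bijection `L` from `V` to the leaves (nodes of degree one) of `T`. -/
structure BranchDecomposition (V : Type u) where
  N : Type
  finite : Finite N
  T : SimpleGraph N
  isTree : T.IsTree
  degree_le : ∀ t, (T.neighborSet t).ncard ≤ 3
  L : V ≃ {t : N // (T.neighborSet t).ncard = 1}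

/-- For an edge `xy` of the tree, the set `A_e` of vertices whose leaf lies in the component of
`T - xy` containing `x` (its complement is `B_e`). -/
def BranchDecomposition.side {V : Type u} (D : BranchDecomposition V) (x y : D.N) : Set V :=
  {v | (D.T.deleteEdges {s(x, y)}).Reachable x (D.L v).1}

/-- `M` is an induced matching of `G` all whose edges `ab` have `a ∈ A` and `b ∉ A`. -/
def InducedCutMatching {V : Type u} (G : SimpleGraph V) (A : Set V) (M : Finset (V × V)) : Prop :=
  (∀ p ∈ M, G.Adj p.1 p.2 ∧ p.1 ∈ A ∧ p.2 ∉ A) ∧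
  ∀ p ∈ M, ∀ q ∈ M, p ≠ q →
    p.1 ≠ q.1 ∧ p.2 ≠ q.2 ∧ ¬ G.Adj p.1 q.1 ∧ ¬ G.Adj p.1 q.2 ∧ ¬ G.Adj p.2 q.2

/-- The sim-width of `G` is at most `k`: `G` has at most one vertex, or some branch decomposition
of `G` has `sim(A_e, B_e) ≤ k` for every edge `e` of its tree. -/
def SimWidthLE {V : Type u} [Fintype V] (G : SimpleGraph V) (k : ℕ) : Prop :=
  Fintype.card V ≤ 1 ∨ ∃ D : BranchDecomposition V, ∀ x y, D.T.Adj x y →
    ∀ M : Finset (V × V), InducedCutMatching G (D.side x y) M → M.card ≤ k

section

open Pool.Agent.H58.TreeAlpha Pool.Agent.H58.BalancedEdge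

variable {V : Type u} [Fintype V] (G : SimpleGraph V)

lemma al_nbr_le {d : ℕ} (hd : 2 ≤ d) (hG : StarFree d G) (v : V) :
    al G {s | s = v ∨ G.Adj s v} ≤ d - 1 := by
  classical
  refine al_le G fun S h1 h2 => ?_
  by_cases hv : v ∈ S
  · have : S ⊆ {v} := by
      intro x hx
      rw [Finset.mem_singleton]
      by_contra hne
      rcases h1 hx with h | h
      · exact hne h
      · exact h2 hx hv hne h
    have := Finset.card_le_card this
    rw [Finset.card_singleton] at this
    omega
  · by_contra hcon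
    push Not at hcon
    have hcard : d ≤ S.card := by omega
    obtain ⟨S', hS', hS'card⟩ := Finset.exists_subset_card_eq hcard
    have e : Fin d ≃ S' := (S'.equivFinOfCardEq hS'card).symm
    have hadj : ∀ x ∈ S, G.Adj v x := by
      intro x hx
      rcases h1 hx with h | h
      · rw [h] at hx; exact absurd hx hv
      · exact h.symm
    apply hG.false
    refine { toFun := Sum.elim (fun _ => v) (fun i => (e i).1), inj' := ?_, map_rel_iff' := ?_ }
    · rintro (a | a) (b | b) hab
      · simp [Subsingleton.elim a b]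
      · simp only [Sum.elim_inl, Sum.elim_inr] at hab
        exact absurd (hab ▸ hS' (e b).2) hv
      · simp only [Sum.elim_inl, Sum.elim_inr] at hab
        exact absurd (hab ▸ hS' (e a).2) hv
      · simp only [Sum.elim_inr] at hab
        rw [e.injective (Subtype.ext hab)]
    · rintro (a | a) (b | b)
      · change G.Adj v v ↔ (completeBipartiteGraph (Fin 1) (Fin d)).Adj (Sum.inl a) (Sum.inl b)
        simp
      · change G.Adj v (e b).1 ↔ (completeBipartiteGraph (Fin 1) (Fin d)).Adj (Sum.inl a) (Sum.inr b)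
        simp [hadj _ (hS' (e b).2)]
      · change G.Adj (e a).1 v ↔ (completeBipartiteGraph (Fin 1) (Fin d)).Adj (Sum.inr a) (Sum.inl b)
        simp [(hadj _ (hS' (e a).2)).symm]
      · change G.Adj (e a).1 (e b).1 ↔
          (completeBipartiteGraph (Fin 1) (Fin d)).Adj (Sum.inr a) (Sum.inr b)
        have h : ¬ G.Adj (e a).1 (e b).1 := fun h => h2 (hS' (e a).2) (hS' (e b).2) h.ne h
        simp [h]

/-- the crossing edges of a cut without induced matching of size `k+1` are covered by a set of
independence number at most `2k(d-1)` -/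
lemma exists_cover {d k : ℕ} (hd : 2 ≤ d) (hG : StarFree d G) (A : Set V)
    (hA : ∀ M : Finset (V × V), InducedCutMatching G A M → M.card ≤ k) :
    ∃ S : Set V, al G S ≤ 2 * k * (d - 1) ∧
      ∀ a ∈ A, ∀ b, b ∉ A → G.Adj a b → a ∈ S ∨ b ∈ S := by
  classical
  have hne : ((Finset.univ : Finset (Finset (V × V))).filter
      (fun M => InducedCutMatching G A M)).Nonempty :=
    ⟨∅, by simp [InducedCutMatching]⟩
  obtain ⟨M, hM, hmax⟩ := Finset.exists_max_image _ Finset.card hne
  have hM1 : InducedCutMatching G A M := (Finset.mem_filter.mp hM).2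
  have hMk := hA M hM1
  refine ⟨{s | ∃ p ∈ M, (s = p.1 ∨ G.Adj s p.1) ∨ (s = p.2 ∨ G.Adj s p.2)}, ?_, ?_⟩
  · have key : ∀ M' : Finset (V × V),
        al G {s | ∃ p ∈ M', (s = p.1 ∨ G.Adj s p.1) ∨ (s = p.2 ∨ G.Adj s p.2)} ≤
          M'.card * (2 * (d - 1)) := by
      intro M'
      induction M' using Finset.induction_on with
      | empty =>
        have : {s : V | ∃ p ∈ (∅ : Finset (V × V)),
            (s = p.1 ∨ G.Adj s p.1) ∨ (s = p.2 ∨ G.Adj s p.2)} = ∅ := by
          ext s; simp
        rw [this, al_empty]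
        exact Nat.zero_le _
      | insert p M' hp ih =>
        rw [Finset.card_insert_of_notMem hp]
        have hsub : {s : V | ∃ q ∈ insert p M', (s = q.1 ∨ G.Adj s q.1) ∨ (s = q.2 ∨ G.Adj s q.2)} ⊆
            ({s | s = p.1 ∨ G.Adj s p.1} ∪ {s | s = p.2 ∨ G.Adj s p.2}) ∪
            {s | ∃ q ∈ M', (s = q.1 ∨ G.Adj s q.1) ∨ (s = q.2 ∨ G.Adj s q.2)} := by
          rintro s ⟨q, hq, h⟩
          rw [Finset.mem_insert] at hq
          rcases hq with rfl | hq
          · left
            rcases h with h | h
            · exact Or.inl h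
            · exact Or.inr h
          · right
            exact ⟨q, hq, h⟩
        have h1 := al_mono G hsub
        have h2 := al_union G ({s | s = p.1 ∨ G.Adj s p.1} ∪ {s | s = p.2 ∨ G.Adj s p.2})
          {s | ∃ q ∈ M', (s = q.1 ∨ G.Adj s q.1) ∨ (s = q.2 ∨ G.Adj s q.2)}
        have h3 := al_union G {s | s = p.1 ∨ G.Adj s p.1} {s | s = p.2 ∨ G.Adj s p.2}
        have h4 := al_nbr_le G hd hG p.1
        have h5 := al_nbr_le G hd hG p.2
        have h6 : (M'.card + 1) * (2 * (d - 1)) = M'.card * (2 * (d - 1)) + 2 * (d - 1) := by ring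
        omega
    refine le_trans (key M) ?_
    calc M.card * (2 * (d - 1)) ≤ k * (2 * (d - 1)) := Nat.mul_le_mul_right _ hMk
      _ = 2 * k * (d - 1) := by ring
  · intro a ha b hb hab
    by_contra hcon
    push Not at hcon
    obtain ⟨h1, h2⟩ := hcon
    simp only [Set.mem_ofPred_eq, not_exists, not_and, not_or] at h1 h2
    have hnot : (a, b) ∉ M := fun h => (h1 (a, b) h).1.1 rfl
    have hnew : InducedCutMatching G A (insert (a, b) M) := by
      constructor
      · intro p hp
        rw [Finset.mem_insert] at hp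
        rcases hp with rfl | hp
        · exact ⟨hab, ha, hb⟩
        · exact hM1.1 p hp
      · intro p hp q hq hpq
        rw [Finset.mem_insert] at hp hq
        rcases hp with rfl | hp <;> rcases hq with rfl | hq
        · exact absurd rfl hpq
        · have h3 := h1 q hq
          have h4 := h2 q hq
          exact ⟨h3.1.1, h4.2.1, h3.1.2, h3.2.2, h4.2.2⟩
        · have h3 := h1 p hp
          have h4 := h2 p hp
          exact ⟨fun h => h3.1.1 h.symm, fun h => h4.2.1 h.symm, fun h => h3.1.2 h.symm,
            fun h => h4.1.2 h.symm, fun h => h4.2.2 h.symm⟩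
        · exact hM1.2 p hp q hq hpq
    have h3 := hmax _ (Finset.mem_filter.mpr ⟨Finset.mem_univ _, hnew⟩)
    rw [Finset.card_insert_of_notMem hnot] at h3
    omega

lemma sep_of_branch {d k : ℕ} (hd : 2 ≤ d) (hG : StarFree d G) (D : BranchDecomposition V)
    (hD : ∀ x y, D.T.Adj x y → ∀ M : Finset (V × V), InducedCutMatching G (D.side x y) M →
      M.card ≤ k) : Sep G (2 * k * (d - 1) + 1) := by
  classical
  intro I hI
  have := D.finite
  obtain ⟨x, y, hxy, h1, h2⟩ := balanced D.isTree D.degree_le (fun v => (D.L v).1)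
    (fun a b hab => D.L.injective (Subtype.ext hab)) (fun v => (D.L v).2) I hI
  obtain ⟨S, hS1, hS2⟩ := exists_cover G hd hG (D.side x y) (hD x y hxy)
  refine ⟨D.side x y, S, ?_, ?_, by omega, hS2⟩
  · exact h1
  · refine le_trans h2 (Nat.mul_le_mul_left _ (Finset.card_le_card ?_))
    intro v hv
    rw [Finset.mem_filter] at hv ⊢
    exact ⟨hv.1, fun h => R_disjoint D.isTree.2 hxy h hv.2⟩

end

/-- Every `K_{1,d}`-free graph of sim-width at most `k` has tree-independence number at most
`14 k (d-1) + 7`. -/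
theorem result : ∀ d : ℕ, 2 ≤ d → ∀ k : ℕ, ∀ (V : Type u) [Fintype V] (G : SimpleGraph V),
    StarFree d G → SimWidthLE G k → TreeAlphaLE G (14 * k * (d - 1) + 7) := by
  classical
  intro d hd k V _ G hG hk
  have key : Pool.Agent.H58.TreeAlpha.HasTD G Set.univ (7 * (2 * k * (d - 1) + 1)) ∅ := by
    rcases hk with hk | ⟨D, hD⟩
    · have h1 : Pool.Agent.H58.TreeAlpha.al G (Set.univ : Set V) ≤ 7 * (2 * k * (d - 1) + 1) := by
        refine Pool.Agent.H58.TreeAlpha.al_le G fun S _ _ => ?_
        have := Finset.card_le_univ S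
        omega
      exact (Pool.Agent.H58.TreeAlpha.HasTD.single G h1).mono G (Set.empty_subset _)
    · exact Pool.Agent.H58.TreeAlpha.rec_main G (by omega) (sep_of_branch G hd hG D hD) _
        Set.univ ∅ rfl (Set.empty_subset _) (by
          rw [Pool.Agent.H58.TreeAlpha.al_empty]; exact Nat.zero_le _)
  obtain ⟨ι, hι, T, bag, r, h1, h2, h3, h4, h5, h6, h7⟩ := key
  refine ⟨⟨ι, hι, T, h1, bag, fun v => h3 v (Set.mem_univ v),
    fun u v huv => h4 u (Set.mem_univ u) v (Set.mem_univ v) huv, fun v => ?_⟩, ?_⟩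
  · obtain ⟨t, ht⟩ := h3 v (Set.mem_univ v)
    have : Nonempty {t | v ∈ bag t} := ⟨⟨t, ht⟩⟩
    exact ⟨h5 v⟩
  · intro t I hI1 hI2
    have h8 := Pool.Agent.H58.TreeAlpha.le_al G hI1 hI2
    have h9 := h6 t
    have h10 : 7 * (2 * k * (d - 1) + 1) = 14 * k * (d - 1) + 7 := by ring
    rw [h10] at h9
    exact le_trans h8 h9

end Pool.Agent.Results.MP_bd25ec_co.SimWidthTreeAlpha
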